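import Pool.Agent.Helper15.T4.Stmts

set_option autoImplicit false

/-!
T4, module CARD: the number of perfect matchings of a finite set.
-/

open Finset

namespace Pool.Agent.Helper5.T4

open Pool.Agent.Helper15.T4

theorem PM_empty {H : Type} [Fintype H] : PM (∅ : Finset H) = {∅} := by
  classical
  ext M
  rw [mem_singleton]
  constructor
  · intro hM
    have hM' : IsPM (∅ : Finset H) M := by
      simpa [PM] using hM
    rw [eq_empty_iff_forall_notMem]
    intro e he
    have h1 := hM'.2.1 e he
    induction e using Sym2.ind with
    | _ x y =>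
      have h2 := h1 x (Sym2.mem_mk_left _ _)
      simp at h2
  · rintro rfl
    simp [PM, IsPM]

theorem CARD (h1 : ST_REC) : ST_CARD := by
  intro H _ _ s k
  induction k generalizing s with
  | zero =>
    intro hs
    have h0 : s = ∅ := by
      rw [← card_eq_zero]
      simpa using hs
    subst h0
    rw [PM_empty]
    simp
  | succ k ih =>
    intro hs
    have hne : s.Nonempty := by
      rw [← card_pos]
      omega
    obtain ⟨h, hh⟩ := hne
    have h2 := h1 H s h (fun _ => 1) hh
    have h3 : ∀ h' ∈ s.erase h, (PM ((s.erase h).erase h')).card = ∏ i ∈ range k, (2 * i + 1) := by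
      intro h' hh'
      apply ih
      rw [card_erase_of_mem hh', card_erase_of_mem hh]
      omega
    simp only [prod_const_one, sum_const, nsmul_eq_mul, mul_one, one_mul] at h2
    have h4 : ((PM s).card : ℂ) = ((s.erase h).card : ℂ) * ((∏ i ∈ range k, (2 * i + 1) : ℕ) : ℂ) := by
      rw [h2, sum_congr rfl (fun h' hh' => by rw [h3 h' hh'])]
      rw [sum_const, nsmul_eq_mul]
    have h5 : (PM s).card = (s.erase h).card * ∏ i ∈ range k, (2 * i + 1) := by
      exact_mod_cast h4
    rw [h5, prod_range_succ, card_erase_of_mem hh, hs, mul_comm]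
    congr 1

end Pool.Agent.Helper5.T4
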