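import Pool.Agent.Helper15.T4.Stmts

set_option autoImplicit false

/-!
T4, module CNT: number of families of disjoint cycles.
-/

open Finset

namespace Pool.Agent.Helper5.T4

open Pool.Agent.Helper15.T4

theorem mem_vs {n k : ℕ} (c : CycD n k) (v : Fin n) : v ∈ vs c ↔ ∃ i, (c i).1 = v := by
  classical
  simp [vs]

theorem disjFam_iff {n : ℕ} {I : Type} {κ : I → ℕ} (c : (i : I) → CycD n (κ i)) :
    DisjFam c ↔ Function.Injective (fun p : (i : I) × Fin (κ i + 1) => (c p.1 p.2).1) ∧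
      ∀ p : (i : I) × Fin (κ i + 1), (c p.1 p.2).2.1 ≠ (c p.1 p.2).2.2 := by
  constructor
  · rintro ⟨h1, h2⟩
    refine ⟨?_, fun p => (h1 p.1).2 p.2⟩
    rintro ⟨i, a⟩ ⟨j, b⟩ h
    by_cases hij : i = j
    · subst hij
      have h3 : a = b := (h1 i).1 h
      rw [h3]
    · exfalso
      have h3 := h2 i j hij
      rw [Finset.disjoint_left] at h3
      exact h3 ((mem_vs _ _).2 ⟨a, rfl⟩) ((mem_vs _ _).2 ⟨b, h.symm⟩)
  · rintro ⟨h1, h2⟩
    refine ⟨fun i => ⟨?_, fun a => h2 ⟨i, a⟩⟩, ?_⟩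
    · intro a b hab
      have h3 := @h1 ⟨i, a⟩ ⟨i, b⟩ hab
      simpa using h3
    · intro i j hij
      rw [Finset.disjoint_left]
      intro v hv hv'
      obtain ⟨a, ha⟩ := (mem_vs _ _).1 hv
      obtain ⟨b, hb⟩ := (mem_vs _ _).1 hv'
      have h3 := @h1 ⟨i, a⟩ ⟨j, b⟩ (by simp only; rw [ha, hb])
      exact hij (congrArg Sigma.fst h3)

/-- the families of disjoint cycles -/
def famEquiv {n : ℕ} {I : Type} (κ : I → ℕ) : {c : (i : I) → CycD n (κ i) // DisjFam c} ≃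
    (((i : I) × Fin (κ i + 1)) ↪ Fin n) ×
      (((i : I) × Fin (κ i + 1)) → {z : Fin 3 × Fin 3 // z.1 ≠ z.2}) where
  toFun c := (⟨fun p => (c.1 p.1 p.2).1, ((disjFam_iff c.1).1 c.2).1⟩,
    fun p => ⟨(c.1 p.1 p.2).2, ((disjFam_iff c.1).1 c.2).2 p⟩)
  invFun q := ⟨fun i j => (q.1 ⟨i, j⟩, (q.2 ⟨i, j⟩).1), by
    rw [disjFam_iff]
    exact ⟨fun p p' h => q.1.injective h, fun p => (q.2 p).2⟩⟩
  left_inv c := rfl
  right_inv q := rfl

theorem CNT : ST_CNT := by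
  intro n I _ _ κ
  rw [← Nat.card_coe_set_eq]
  have h1 : Nat.card ({c : (i : I) → CycD n (κ i) | DisjFam c} : Set _) =
      Nat.card ((((i : I) × Fin (κ i + 1)) ↪ Fin n) ×
        (((i : I) × Fin (κ i + 1)) → {z : Fin 3 × Fin 3 // z.1 ≠ z.2})) :=
    Nat.card_congr (famEquiv κ)
  have h2 : Fintype.card {z : Fin 3 × Fin 3 // z.1 ≠ z.2} = 6 := by decide
  have h3 : Fintype.card ((i : I) × Fin (κ i + 1)) = ∑ i, (κ i + 1) := by
    rw [Fintype.card_sigma]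
    simp
  rw [h1, Nat.card_eq_fintype_card, Fintype.card_prod, Fintype.card_embedding_eq, Fintype.card_fun,
    h2, h3, Fintype.card_fin]

end Pool.Agent.Helper5.T4
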