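import Pool.Agent.Helper15.T4.Stmts

set_option autoImplicit false

/-!
T4, module ROWA: the row inequality for complex rows.
-/

open Finset

namespace Pool.Agent.Helper5.T4

open Pool.Agent.Helper15.T4

/-- the polynomial inequality -/
theorem rowa_core (A B p q k : ℝ) (hk : k ^ 2 = 8 / 3) :
    1 / 50 * (p ^ 4 + q ^ 4 + B ^ 4) ≤
      6 * (A ^ 2 + B ^ 2) * (3 / 5 * B ^ 2 + 2 / 3 * p ^ 2 + 16 / 15 * q ^ 2) +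
      3 * (3 / 5 * B ^ 2 + 2 / 3 * p ^ 2 + 16 / 15 * q ^ 2) ^ 2 - 4 * (A * q + B * p) ^ 2 -
      (p ^ 2 + q ^ 2) ^ 2 / 2 - 2 * (A ^ 2 + B ^ 2) * (p ^ 2 + q ^ 2) -
      k * (A * q + B * p) * (p ^ 2 + q ^ 2) := by
  have h1 : 6 * (A ^ 2 + B ^ 2) * (3 / 5 * B ^ 2 + 2 / 3 * p ^ 2 + 16 / 15 * q ^ 2) +
      3 * (3 / 5 * B ^ 2 + 2 / 3 * p ^ 2 + 16 / 15 * q ^ 2) ^ 2 - 4 * (A * q + B * p) ^ 2 -
      (p ^ 2 + q ^ 2) ^ 2 / 2 - 2 * (A ^ 2 + B ^ 2) * (p ^ 2 + q ^ 2) -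
      k * (A * q + B * p) * (p ^ 2 + q ^ 2) =
      18 / 5 * (A * B - 5 / 9 * p * q) ^ 2 + 2 * (A * p - (k * p * q + 4 * B * q) / 4) ^ 2 +
      2 / 5 * (A * q - 5 / 4 * k * q ^ 2) ^ 2 +
      (156 / 25 * B ^ 2 * q ^ 2 - 2 * k * B * p * q ^ 2 + 82 / 45 * p ^ 2 * q ^ 2) +
      (117 / 25 * B ^ 4 + 2 / 5 * B ^ 2 * p ^ 2 - k * B * p ^ 3 + 5 / 6 * p ^ 4) +
      187 / 150 * q ^ 4 := by
    linear_combination (-(p ^ 2 * q ^ 2 / 8 + 5 / 8 * q ^ 4)) * hk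
  have h2 : 0 ≤ 156 / 25 * B ^ 2 * q ^ 2 - 2 * k * B * p * q ^ 2 + 82 / 45 * p ^ 2 * q ^ 2 := by
    have h3 : 156 / 25 * B ^ 2 * q ^ 2 - 2 * k * B * p * q ^ 2 + 82 / 45 * p ^ 2 * q ^ 2 =
        156 / 25 * (B * q - 25 / 156 * k * (p * q)) ^ 2 +
          (82 / 45 - 25 / 156 * (8 / 3)) * (p * q) ^ 2 := by
      linear_combination (-(25 / 156) * (p * q) ^ 2) * hk
    rw [h3]
    positivity
  have h4 : 1 / 50 * (p ^ 4 + B ^ 4) ≤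
      117 / 25 * B ^ 4 + 2 / 5 * B ^ 2 * p ^ 2 - k * B * p ^ 3 + 5 / 6 * p ^ 4 := by
    have h5 : 117 / 25 * B ^ 4 + 2 / 5 * B ^ 2 * p ^ 2 - k * B * p ^ 3 + 5 / 6 * p ^ 4 =
        (9 / 10 * p ^ 2 - k / (9 / 5) * B * p - 3 / 10 * B ^ 2) ^ 2 + (5 / 6 - 81 / 100) * p ^ 4 +
          (2 / 5 - 25 / 81 * (8 / 3) + 54 / 100) * (B * p) ^ 2 - k * (1 / 3) * (B * p) * B ^ 2 +
          (117 / 25 - 9 / 100) * B ^ 4 := by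
      linear_combination (-(25 / 81) * (B * p) ^ 2) * hk
    have h6 : k * (1 / 3) * (B * p) * B ^ 2 ≤ 1 / 10 * (B * p) ^ 2 + B ^ 4 := by
      have h7 : 1 / 10 * (B * p) ^ 2 + B ^ 4 - k * (1 / 3) * (B * p) * B ^ 2 =
          1 / 10 * (B * p - 5 / 3 * k * B ^ 2) ^ 2 + (1 - 5 / 18 * (8 / 3)) * B ^ 4 := by
        linear_combination (-(5 / 18) * B ^ 4) * hk
      have h8 : 0 ≤ 1 / 10 * (B * p - 5 / 3 * k * B ^ 2) ^ 2 + (1 - 5 / 18 * (8 / 3)) * B ^ 4 := by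
        positivity
      linarith
    rw [h5]
    have h9 : 0 ≤ (9 / 10 * p ^ 2 - k / (9 / 5) * B * p - 3 / 10 * B ^ 2) ^ 2 := sq_nonneg _
    have h10 : 0 ≤ p ^ 4 := by positivity
    have h11 : 0 ≤ B ^ 4 := by positivity
    have h12 : 0 ≤ (B * p) ^ 2 := sq_nonneg _
    nlinarith
  rw [h1]
  have h13 : 0 ≤ 18 / 5 * (A * B - 5 / 9 * p * q) ^ 2 := by positivity
  have h14 : 0 ≤ 2 * (A * p - (k * p * q + 4 * B * q) / 4) ^ 2 := by positivity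
  have h15 : 0 ≤ 2 / 5 * (A * q - 5 / 4 * k * q ^ 2) ^ 2 := by positivity
  have h16 : 0 ≤ q ^ 4 := by positivity
  linarith

/-- the inequality with remainder -/
theorem rowa_aux (A B : ℝ) (a b : Fin 3 → ℝ) (ha : ∑ j, a j = 0) (hb : ∑ j, b j = 0) :
    1 / 50 * ((∑ j, a j ^ 2) ^ 2 + (∑ j, b j ^ 2) ^ 2 + B ^ 4) +
      ∑ j, ((A - b j) ^ 2 + (B + a j) ^ 2) ^ 2 ≤
    4 / 3 * (3 / 2 * A ^ 2 + ∑ j, a j ^ 2 + 8 / 5 * (3 / 2 * B ^ 2 + ∑ j, b j ^ 2)) ^ 2 := by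
  obtain ⟨k, hk0, hk⟩ : ∃ k : ℝ, 0 ≤ k ∧ k ^ 2 = 8 / 3 :=
    ⟨Real.sqrt (8 / 3), Real.sqrt_nonneg _, Real.sq_sqrt (by norm_num)⟩
  rw [Fin.sum_univ_three] at ha hb
  have ha2 : a 2 = -(a 0) - a 1 := by linarith
  have hb2 : b 2 = -(b 0) - b 1 := by linarith
  simp only [Fin.sum_univ_three, ha2, hb2]
  generalize a 0 = a0
  generalize a 1 = a1
  generalize b 0 = b0
  generalize b 1 = b1
  obtain ⟨P, hP⟩ : ∃ P : ℝ, P = a0 ^ 2 + a1 ^ 2 + (-a0 - a1) ^ 2 := ⟨_, rfl⟩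
  obtain ⟨Q, hQ⟩ : ∃ Q : ℝ, Q = b0 ^ 2 + b1 ^ 2 + (-b0 - b1) ^ 2 := ⟨_, rfl⟩
  have hP0 : 0 ≤ P := by rw [hP]; positivity
  have hQ0 : 0 ≤ Q := by rw [hQ]; positivity
  obtain ⟨p, hp0, hp⟩ : ∃ p : ℝ, 0 ≤ p ∧ p ^ 2 = P := ⟨Real.sqrt P, Real.sqrt_nonneg _, Real.sq_sqrt hP0⟩
  obtain ⟨q, hq0, hq⟩ : ∃ q : ℝ, 0 ≤ q ∧ q ^ 2 = Q := ⟨Real.sqrt Q, Real.sqrt_nonneg _, Real.sq_sqrt hQ0⟩
  have hcore := rowa_core |A| |B| p q k hk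
  -- sums
  obtain ⟨S, hS⟩ : ∃ S : ℝ, S = a0 * b0 + a1 * b1 + (-a0 - a1) * (-b0 - b1) := ⟨_, rfl⟩
  obtain ⟨l0, hl0⟩ : ∃ l : ℝ, l = B * a0 - A * b0 := ⟨_, rfl⟩
  obtain ⟨l1, hl1⟩ : ∃ l : ℝ, l = B * a1 - A * b1 := ⟨_, rfl⟩
  obtain ⟨n0, hn0⟩ : ∃ l : ℝ, l = a0 ^ 2 + b0 ^ 2 := ⟨_, rfl⟩
  obtain ⟨n1, hn1⟩ : ∃ l : ℝ, l = a1 ^ 2 + b1 ^ 2 := ⟨_, rfl⟩
  obtain ⟨n2, hn2⟩ : ∃ l : ℝ, l = (-a0 - a1) ^ 2 + (-b0 - b1) ^ 2 := ⟨_, rfl⟩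
  have hN : n0 + n1 + n2 = P + Q := by rw [hn0, hn1, hn2, hP, hQ]; ring
  -- the sum of the squares of the l
  have hS2 : S ^ 2 ≤ P * Q := by
    have h1 : P * Q - S ^ 2 = 3 * (a0 * b1 - a1 * b0) ^ 2 := by
      rw [hP, hQ, hS]; ring
    have h2 := sq_nonneg (a0 * b1 - a1 * b0)
    linarith
  have hSabs : |S| ≤ p * q := by
    apply abs_le_of_sq_le_sq _ (mul_nonneg hp0 hq0)
    calc S ^ 2 ≤ P * Q := hS2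
      _ = (p * q) ^ 2 := by rw [← hp, ← hq]; ring
  have hl2 : l0 ^ 2 + l1 ^ 2 + (-l0 - l1) ^ 2 ≤ (|A| * q + |B| * p) ^ 2 := by
    have h1 : l0 ^ 2 + l1 ^ 2 + (-l0 - l1) ^ 2 = B ^ 2 * P - 2 * (A * B * S) + A ^ 2 * Q := by
      rw [hl0, hl1, hP, hQ, hS]; ring
    have h2 : |A * B * S| ≤ |A| * |B| * (p * q) := by
      rw [abs_mul, abs_mul]
      exact mul_le_mul_of_nonneg_left hSabs (mul_nonneg (abs_nonneg _) (abs_nonneg _))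
    have h3 := neg_abs_le (A * B * S)
    have h4 : (|A| * q + |B| * p) ^ 2 = |A| ^ 2 * q ^ 2 + 2 * (|A| * |B| * (p * q)) +
        |B| ^ 2 * p ^ 2 := by ring
    rw [h1, h4, sq_abs, sq_abs, hp, hq]
    linarith
  have hn2' : n0 ^ 2 + n1 ^ 2 + n2 ^ 2 ≤ (P + Q) ^ 2 / 2 := by
    have h1 : (P + Q) ^ 2 / 2 - (n0 ^ 2 + n1 ^ 2 + n2 ^ 2) = 2 * (a0 * b1 - a1 * b0) ^ 2 := by
      rw [hn0, hn1, hn2, hP, hQ]; ring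
    have h2 := sq_nonneg (a0 * b1 - a1 * b0)
    linarith
  -- the mixed sum
  obtain ⟨R, hR⟩ : ∃ R : ℝ, R = l0 * n0 + l1 * n1 + (-l0 - l1) * n2 := ⟨_, rfl⟩
  obtain ⟨L, hL⟩ : ∃ L : ℝ, L = |A| * q + |B| * p := ⟨_, rfl⟩
  have hL0 : 0 ≤ L := by
    rw [hL]; positivity
  have hR2 : R ^ 2 ≤ L ^ 2 * ((P + Q) ^ 2 / 6) := by
    have h1 : R = l0 * (n0 - (P + Q) / 3) + l1 * (n1 - (P + Q) / 3) +
        (-l0 - l1) * (n2 - (P + Q) / 3) := by rw [hR]; ring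
    have h2 : R ^ 2 ≤ (l0 ^ 2 + l1 ^ 2 + (-l0 - l1) ^ 2) *
        ((n0 - (P + Q) / 3) ^ 2 + (n1 - (P + Q) / 3) ^ 2 + (n2 - (P + Q) / 3) ^ 2) := by
      rw [h1]
      have h5 := sq_nonneg (l0 * (n1 - (P + Q) / 3) - l1 * (n0 - (P + Q) / 3))
      have h6 := sq_nonneg (l0 * (n2 - (P + Q) / 3) - (-l0 - l1) * (n0 - (P + Q) / 3))
      have h7 := sq_nonneg (l1 * (n2 - (P + Q) / 3) - (-l0 - l1) * (n1 - (P + Q) / 3))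
      linarith
    have h3 : (n0 - (P + Q) / 3) ^ 2 + (n1 - (P + Q) / 3) ^ 2 + (n2 - (P + Q) / 3) ^ 2 ≤
        (P + Q) ^ 2 / 6 := by
      have h4 : (n0 - (P + Q) / 3) ^ 2 + (n1 - (P + Q) / 3) ^ 2 + (n2 - (P + Q) / 3) ^ 2 =
          n0 ^ 2 + n1 ^ 2 + n2 ^ 2 - 2 / 3 * (P + Q) * (n0 + n1 + n2) + (P + Q) ^ 2 / 3 := by ring
      have h5 : n0 ^ 2 + n1 ^ 2 + n2 ^ 2 - 2 / 3 * (P + Q) * (P + Q) + (P + Q) ^ 2 / 3 =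
          n0 ^ 2 + n1 ^ 2 + n2 ^ 2 - (P + Q) ^ 2 / 3 := by ring
      rw [h4, hN, h5]
      linarith
    calc R ^ 2 ≤ _ := h2
      _ ≤ L ^ 2 * ((P + Q) ^ 2 / 6) := by
        rw [hL]
        exact mul_le_mul hl2 h3 (by positivity) (by positivity)
  have hRabs : -(4 * R) ≥ -(k * L * (P + Q)) := by
    have h1 : |4 * R| ≤ k * L * (P + Q) := by
      apply abs_le_of_sq_le_sq _ (by positivity)
      calc (4 * R) ^ 2 = 16 * R ^ 2 := by ring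
        _ ≤ 16 * (L ^ 2 * ((P + Q) ^ 2 / 6)) := by linarith
        _ = (k * L * (P + Q)) ^ 2 := by
          have : (k * L * (P + Q)) ^ 2 = k ^ 2 * L ^ 2 * (P + Q) ^ 2 := by ring
          rw [this, hk]
          ring
    have h2 := le_abs_self (4 * R)
    linarith
  have hA2 : |A| ^ 2 = A ^ 2 := sq_abs A
  have hB2 : |B| ^ 2 = B ^ 2 := sq_abs B
  have hB4 : |B| ^ 4 = B ^ 4 := by
    rw [show (4 : ℕ) = 2 * 2 from rfl, pow_mul, pow_mul, sq_abs]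
  have hp4 : p ^ 4 = P ^ 2 := by rw [← hp]; ring
  have hq4 : q ^ 4 = Q ^ 2 := by rw [← hq]; ring
  rw [← hL, hA2, hB2, hB4, hp4, hq4, hp, hq] at hcore
  rw [← hL] at hl2
  have hfin : ((A - b0) ^ 2 + (B + a0) ^ 2) ^ 2 + ((A - b1) ^ 2 + (B + a1) ^ 2) ^ 2 +
      ((A - (-b0 - b1)) ^ 2 + (B + (-a0 - a1)) ^ 2) ^ 2 =
      3 * (A ^ 2 + B ^ 2) ^ 2 + 4 * (l0 ^ 2 + l1 ^ 2 + (-l0 - l1) ^ 2) +
        (n0 ^ 2 + n1 ^ 2 + n2 ^ 2) + 2 * (A ^ 2 + B ^ 2) * (n0 + n1 + n2) + 4 * R := by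
    rw [hR, hl0, hl1, hn0, hn1, hn2]; ring
  rw [hfin, hN, ← hP, ← hQ]
  have hrhs : 4 / 3 * (3 / 2 * A ^ 2 + P + 8 / 5 * (3 / 2 * B ^ 2 + Q)) ^ 2 =
      3 * (A ^ 2 + B ^ 2) ^ 2 +
      6 * (A ^ 2 + B ^ 2) * (3 / 5 * B ^ 2 + 2 / 3 * P + 16 / 15 * Q) +
      3 * (3 / 5 * B ^ 2 + 2 / 3 * P + 16 / 15 * Q) ^ 2 := by ring
  rw [hrhs]
  linarith

theorem ROWA : ST_ROWA := by
  intro x y a b ha hb
  have h := rowa_aux (Real.sqrt 2 * x) (Real.sqrt 2 * y) a b ha hb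
  have h2 : Real.sqrt 2 ^ 2 = 2 := Real.sq_sqrt (by norm_num)
  have hx : 3 / 2 * (Real.sqrt 2 * x) ^ 2 = 3 * x ^ 2 := by
    rw [mul_pow, h2]; ring
  have hy : 3 / 2 * (Real.sqrt 2 * y) ^ 2 = 3 * y ^ 2 := by
    rw [mul_pow, h2]; ring
  rw [hx, hy] at h
  have h0 : 0 ≤ 1 / 50 * ((∑ j, a j ^ 2) ^ 2 + (∑ j, b j ^ 2) ^ 2 + (Real.sqrt 2 * y) ^ 4) := by
    positivity
  refine ⟨by linarith, ?_⟩
  intro heq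
  have h3 : (∑ j, a j ^ 2) ^ 2 + (∑ j, b j ^ 2) ^ 2 + (Real.sqrt 2 * y) ^ 4 ≤ 0 := by linarith
  have h4 : 0 ≤ (∑ j, a j ^ 2) ^ 2 := sq_nonneg _
  have h5 : 0 ≤ (∑ j, b j ^ 2) ^ 2 := sq_nonneg _
  have h6 : 0 ≤ (Real.sqrt 2 * y) ^ 4 := by positivity
  have h7 : (∑ j, a j ^ 2) ^ 2 = 0 := by linarith
  have h8 : (∑ j, b j ^ 2) ^ 2 = 0 := by linarith
  have h9 : (Real.sqrt 2 * y) ^ 4 = 0 := by linarith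
  have key : ∀ c : Fin 3 → ℝ, (∑ j, c j ^ 2) ^ 2 = 0 → c = 0 := by
    intro c hc
    have h10 : ∑ j, c j ^ 2 = 0 := by
      exact pow_eq_zero_iff (two_ne_zero) |>.1 hc
    rw [Finset.sum_eq_zero_iff_of_nonneg (fun j _ => sq_nonneg _)] at h10
    funext j
    exact pow_eq_zero_iff (two_ne_zero) |>.1 (h10 j (Finset.mem_univ _))
  refine ⟨?_, key a h7, key b h8⟩
  have h11 : Real.sqrt 2 * y = 0 := pow_eq_zero_iff (by norm_num) |>.1 h9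
  rcases mul_eq_zero.1 h11 with h | h
  · exfalso
    rw [h] at h2
    norm_num at h2
  · exact h

end Pool.Agent.Helper5.T4
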